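import Pool.Agent.U237.NF.Lite

/-!
# Project NF, package C: the number of primes in a dyadic block
-/

set_option autoImplicit false
set_option maxHeartbeats 400000

namespace Pool.Agent.U237.NF.C

open Finset
open Pool.Agent.U237.NF.Lite

open Classical in
theorem t_C : S_C := by
  obtain ⟨x0, hx0⟩ := Pool.Agent.TH423.SH.pai 1 le_rfl (1 / 2) 1 (by norm_num) one_pos
  refine ⟨⌈x0⌉₊, fun y hy => ?_⟩
  have h1 : x0 ≤ (y : ℝ) := (Nat.le_ceil _).trans (by exact_mod_cast hy)
  have hy0 : (0 : ℝ) ≤ y := Nat.cast_nonneg _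
  have h2 := hx0 y h1 y (2 * y) 1 (by linarith) (by push_cast; linarith) (by push_cast; linarith) (by norm_num)
  have h3 : (Ioc y (2 * y)).filter (fun q => q.Prime ∧ q % 1 = 1 % 1) = PB y := by
    unfold PB
    apply filter_congr
    intro q _
    simp [Nat.mod_one]
  rw [h3] at h2
  have h4 : (((2 * y : ℕ) : ℝ) - y) / ((Nat.totient 1 : ℝ) * Real.log y) = y / Real.log y := by
    simp only [Nat.totient_one]
    push_cast
    rw [one_mul]
    congr 1
    ring
  rw [h4] at h2
  have h5 := (abs_le.1 h2).1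
  have h6 : (y : ℝ) / (2 * Real.log y) = (y / Real.log y) / 2 := by
    rw [div_div, mul_comm]
  rw [h6]
  linarith

end Pool.Agent.U237.NF.C
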