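import Pool.Agent.U237.NF.Lite

/-!
# Project NF, package M: few windows with correlations with frequencies near fixed rationals

The lemmas `phase`, `moving`, `win_l1` are copied from `Pool/Agent/TH823/MRS/Circ2.lean` (light imports).
-/

set_option autoImplicit false

namespace Pool.Agent.U237.NF.M

open Finset Filter Topology
open Pool.Agent.H807R2.Dav (ee norm_ee ee_add ee_int ee_zero)
open Pool.Agent.U237.NF.Lite

/-- phases -/
lemma phase (w : ℂ) : ∃ θ : ℂ, ‖θ‖ ≤ 1 ∧ θ * w = (‖w‖ : ℂ) := by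
  refine ⟨(starRingEnd ℂ) w / ‖w‖, ?_, ?_⟩
  · simp only [norm_div, RCLike.norm_conj, Complex.norm_real, norm_norm]
    exact div_self_le_one _
  · by_cases h0 : ‖w‖ = 0
    · rw [norm_eq_zero.1 h0]; simp
    · have h0' : ((‖w‖ : ℝ) : ℂ) ≠ 0 := by exact_mod_cast h0
      rw [div_mul_eq_mul_div, mul_comm, Complex.mul_conj', pow_two]
      field_simp

/-- moving sums are Lipschitz -/
lemma moving (θ : ℕ → ℂ) (hθ : ∀ z, ‖θ z‖ ≤ 1) (W : ℕ) (n m : ℕ) :
    ‖∑ z ∈ Ico n (n + W), θ z - ∑ z ∈ Ico m (m + W), θ z‖ ≤ 2 * |(n : ℝ) - m| := by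
  have hL : ∀ a b : ℕ, ‖∑ z ∈ range a, θ z - ∑ z ∈ range b, θ z‖ ≤ |(a : ℝ) - b| := by
    have h1 : ∀ a b : ℕ, a ≤ b → ‖∑ z ∈ range a, θ z - ∑ z ∈ range b, θ z‖ ≤ |(a : ℝ) - b| := by
      intro a b hab
      rw [← norm_neg, neg_sub, ← sum_Ico_eq_sub _ hab]
      refine (norm_sum_le _ _).trans ((sum_le_sum fun z _ => hθ z).trans ?_)
      rw [sum_const, Nat.card_Ico, nsmul_eq_mul, mul_one, Nat.cast_sub hab, abs_sub_comm]
      exact le_abs_self _
    intro a b
    rcases le_total a b with h | h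
    · exact h1 a b h
    · rw [← norm_neg, neg_sub, abs_sub_comm]
      exact h1 b a h
  rw [sum_Ico_eq_sub _ (by omega), sum_Ico_eq_sub _ (by omega)]
  have h2 := hL (n + W) (m + W)
  have h3 := hL m n
  have e1 : (((n + W : ℕ) : ℝ) - ((m + W : ℕ) : ℝ)) = n - m := by push_cast; ring
  rw [e1] at h2
  rw [abs_sub_comm] at h3
  calc ‖∑ z ∈ range (n + W), θ z - ∑ z ∈ range n, θ z - (∑ z ∈ range (m + W), θ z - ∑ z ∈ range m, θ z)‖ =
        ‖(∑ z ∈ range (n + W), θ z - ∑ z ∈ range (m + W), θ z) + (∑ z ∈ range m, θ z - ∑ z ∈ range n, θ z)‖ := by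
        congr 1; ring
    _ ≤ _ := (norm_add_le _ _).trans (by linarith)

/-- the sum over the short window which ends at `z` -/
noncomputable def SW (h : ℕ → ℂ) (X W : ℕ) (α : ℝ) (z : ℕ) : ℂ :=
  ∑ n ∈ Icc 1 (3 * X), if n ≤ z ∧ z < n + W then h n * ee ((n : ℝ) * α) else 0

/-- the first moment of the exponential sums in the windows -/
lemma win_l1 (h : ℕ → ℂ) (hE : ExpoSmall h) (ε : ℝ) (hε : 0 < ε) :
    ∃ W₀ X₀ : ℕ, ∀ X : ℕ, X₀ ≤ X → ∀ W : ℕ, W₀ ≤ W → W ≤ X → ∀ α : ℝ,
      ∑ z ∈ range (3 * X + 1), ‖SW h X W α z‖ ≤ ε * W * X := by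
  obtain ⟨H₀, X₀, hX⟩ := hE ε hε 2 (by norm_num)
  refine ⟨⌈H₀⌉₊, X₀, fun X hX0 W hW1 hW2 α => ?_⟩
  set S : ℕ → ℂ := fun z => SW h X W α z with hS
  choose θ0 hθ0 hθ1 using fun z => phase (S z)
  set θ : ℕ → ℂ := fun z => if z < 3 * X + 1 then θ0 z else 0 with hθ
  have hθb : ∀ z, ‖θ z‖ ≤ 1 := by
    intro z
    rw [hθ]
    simp only
    split_ifs
    · exact hθ0 z
    · simp
  have key := hX X hX0 W ((Nat.le_ceil _).trans (by exact_mod_cast hW1)) (by exact_mod_cast hW2)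
    (fun n => ∑ z ∈ Ico n (n + W), θ z) (by
      intro n
      refine (norm_sum_le _ _).trans ((sum_le_sum fun z _ => hθb z).trans ?_)
      rw [sum_const, Nat.card_Ico, nsmul_eq_mul, mul_one, Nat.add_sub_cancel_left]) (by
      intro n m
      exact moving θ hθb W n m) (by
      intro n hn
      apply sum_eq_zero
      intro z hz
      rw [mem_Ico] at hz
      rw [hθ]
      simp only
      rw [if_neg]
      omega) α
  refine le_trans (le_of_eq ?_) key
  have e1 : ((∑ z ∈ range (3 * X + 1), ‖S z‖ : ℝ) : ℂ) = ∑ n ∈ Icc 1 (3 * X), h n * ee ((n : ℝ) * α) * ∑ z ∈ Ico n (n + W), θ z := by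
    push_cast
    have e2 : ∀ z ∈ range (3 * X + 1), ((‖S z‖ : ℝ) : ℂ) =
        ∑ n ∈ Icc 1 (3 * X), if n ≤ z ∧ z < n + W then h n * ee ((n : ℝ) * α) * θ0 z else 0 := by
      intro z _
      rw [← hθ1 z, hS]
      simp only
      unfold SW
      rw [mul_sum]
      apply sum_congr rfl
      intro n _
      split_ifs
      · ring
      · rw [mul_zero]
    rw [sum_congr rfl e2, sum_comm]
    apply sum_congr rfl
    intro n _
    have e3 : ∑ z ∈ Ico n (n + W), θ z = ∑ z ∈ range (3 * X + 1), if n ≤ z ∧ z < n + W then θ0 z else 0 := by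
      rw [hθ]
      simp only
      rw [← sum_filter, ← sum_filter]
      apply sum_congr _ fun _ _ => rfl
      ext z
      simp only [mem_filter, mem_Ico, mem_range]
      tauto
    rw [e3, mul_sum]
    apply sum_congr rfl
    intro z _
    split_ifs
    · rfl
    · rw [mul_zero]
  rw [← e1, Complex.norm_real, Real.norm_of_nonneg (sum_nonneg fun _ _ => norm_nonneg _)]

lemma ee_lip (x y : ℝ) : ‖ee x - ee y‖ ≤ 7 * |x - y| := by
  have h1 : ee x - ee y = ee y * (ee (x - y) - 1) := by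
    rw [mul_sub, ← ee_add, mul_one]
    congr 2
    ring
  rw [h1, norm_mul, norm_ee, one_mul]
  have h3 : ee (x - y) = Complex.exp (Complex.I * ((2 * Real.pi * (x - y) : ℝ) : ℂ)) := by
    unfold ee
    congr 1
    push_cast
    ring
  rw [h3]
  refine (Real.norm_exp_I_mul_ofReal_sub_one_le).trans ?_
  rw [Real.norm_eq_abs, abs_mul, abs_mul, abs_of_pos (by norm_num : (0 : ℝ) < 2), abs_of_pos Real.pi_pos]
  have := Real.pi_lt_d2
  have := abs_nonneg (x - y)
  nlinarith

/-- the number of the `n` whose short window contains `z` -/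
lemma card_short (s : Finset ℕ) (z W : ℕ) : (s.filter (fun n => n ≤ z ∧ z < n + W)).card ≤ W := by
  have h1 : s.filter (fun n => n ≤ z ∧ z < n + W) ⊆ Ioc (z - W) z ∪ (if z < W then {0} else ∅) := by
    intro n hn
    rw [mem_filter] at hn
    rw [mem_union, mem_Ioc]
    by_cases hz : z < W
    · rw [if_pos hz, mem_singleton]
      omega
    · left
      omega
  by_cases hz : z < W
  · have h2 : s.filter (fun n => n ≤ z ∧ z < n + W) ⊆ range W := by
      intro n hn
      rw [mem_filter] at hn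
      rw [mem_range]
      omega
    have := card_le_card h2
    rwa [card_range] at this
  · have h2 : s.filter (fun n => n ≤ z ∧ z < n + W) ⊆ Ioc (z - W) z := by
      intro n hn
      rw [mem_filter] at hn
      rw [mem_Ioc]
      omega
    have := card_le_card h2
    rw [Nat.card_Ioc] at this
    omega

/-- one long window -/
lemma one_window (h : ℕ → ℂ) (hb : ∀ n, ‖h n‖ ≤ 1) (X L H n0 : ℕ) (hn0 : 1 ≤ n0) (hLH : L ≤ H)
    (hX : n0 + H ≤ 3 * X + 1) (al α l : ℝ) (hl : |al - α| ≤ l) :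
    L * ‖∑ n ∈ Ico n0 (n0 + H), h n * ee ((n : ℝ) * al)‖ ≤
      ∑ z ∈ Ico n0 (n0 + H), ‖SW h X L α z‖ + 2 * (L : ℝ) ^ 2 + 7 * (L : ℝ) ^ 2 * l * H := by
  have hl0 : 0 ≤ l := (abs_nonneg _).trans hl
  set x : ℕ → ℂ := fun n => h n * ee ((n : ℝ) * al) with hx
  have hxb : ∀ n, ‖x n‖ ≤ 1 := by
    intro n
    rw [hx]
    simp only
    rw [norm_mul, norm_ee, mul_one]
    exact hb n
  set T : ℕ → ℂ := fun z => ∑ n ∈ Ico n0 (n0 + H), if n ≤ z ∧ z < n + L then x n else 0 with hT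
  have hTb : ∀ z, ‖T z‖ ≤ L := by
    intro z
    rw [hT]
    simp only
    rw [← sum_filter]
    refine (norm_sum_le _ _).trans ((sum_le_sum fun n _ => hxb n).trans ?_)
    rw [sum_const, nsmul_eq_mul, mul_one]
    exact_mod_cast card_short _ z L
  have e1 : (L : ℂ) * ∑ n ∈ Ico n0 (n0 + H), x n = ∑ z ∈ Ico n0 (n0 + H + L), T z := by
    rw [hT]
    simp only
    rw [sum_comm, mul_sum]
    apply sum_congr rfl
    intro n hn
    rw [mem_Ico] at hn
    rw [← sum_filter, sum_const, nsmul_eq_mul]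
    congr 2
    have : (Ico n0 (n0 + H + L)).filter (fun z => n ≤ z ∧ z < n + L) = Ico n (n + L) := by
      ext z
      simp only [mem_filter, mem_Ico]
      omega
    rw [this, Nat.card_Ico]
    omega
  have e2 : (L : ℝ) * ‖∑ n ∈ Ico n0 (n0 + H), x n‖ ≤ ∑ z ∈ Ico n0 (n0 + H + L), ‖T z‖ := by
    have := norm_sum_le (Ico n0 (n0 + H + L)) T
    rw [← e1, norm_mul, Complex.norm_natCast] at this
    exact this
  have e3 : ∀ z ∈ Ico (n0 + L) (n0 + H), ‖T z‖ ≤ ‖SW h X L α z‖ + 7 * (L : ℝ) ^ 2 * l := by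
    intro z hz
    rw [mem_Ico] at hz
    have f1 : T z = ∑ n ∈ Icc 1 (3 * X), if n ≤ z ∧ z < n + L then x n else 0 := by
      rw [hT]
      simp only
      rw [← sum_filter, ← sum_filter]
      apply sum_congr _ fun _ _ => rfl
      ext n
      simp only [mem_filter, mem_Ico, mem_Icc]
      omega
    have f2 : T z = ee ((z : ℝ) * (al - α)) * SW h X L α z +
        ∑ n ∈ Icc 1 (3 * X), if n ≤ z ∧ z < n + L then
          h n * ee ((n : ℝ) * α) * (ee ((n : ℝ) * (al - α)) - ee ((z : ℝ) * (al - α))) else 0 := by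
      rw [f1]
      unfold SW
      rw [mul_sum, ← sum_add_distrib]
      apply sum_congr rfl
      intro n _
      split_ifs
      · rw [hx]
        simp only
        have : ee ((n : ℝ) * al) = ee ((n : ℝ) * α) * ee ((n : ℝ) * (al - α)) := by
          rw [← ee_add]
          congr 1
          ring
        rw [this]
        ring
      · simp
    rw [f2]
    refine (norm_add_le _ _).trans ?_
    rw [norm_mul, norm_ee, one_mul]
    gcongr
    rw [← sum_filter]
    refine (norm_sum_le _ _).trans ?_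
    have f3 : ∀ n ∈ (Icc 1 (3 * X)).filter (fun n => n ≤ z ∧ z < n + L),
        ‖h n * ee ((n : ℝ) * α) * (ee ((n : ℝ) * (al - α)) - ee ((z : ℝ) * (al - α)))‖ ≤ 7 * (L : ℝ) * l := by
      intro n hn
      rw [mem_filter] at hn
      rw [norm_mul, norm_mul, norm_ee, mul_one]
      have g1 := ee_lip ((n : ℝ) * (al - α)) ((z : ℝ) * (al - α))
      have g2 : |(n : ℝ) * (al - α) - (z : ℝ) * (al - α)| ≤ L * l := by
        rw [← sub_mul, abs_mul]
        gcongr
        rw [abs_sub_comm, abs_of_nonneg]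
        · have : (z : ℝ) < n + L := by exact_mod_cast hn.2.2
          linarith
        · have : (n : ℝ) ≤ z := by exact_mod_cast hn.2.1
          linarith
      calc ‖h n‖ * ‖ee ((n : ℝ) * (al - α)) - ee ((z : ℝ) * (al - α))‖ ≤ 1 * (7 * (L * l)) := by
            gcongr
            · exact hb n
            · exact g1.trans (by gcongr)
        _ = _ := by ring
    refine (sum_le_sum f3).trans ?_
    rw [sum_const, nsmul_eq_mul]
    have f4 : (((Icc 1 (3 * X)).filter (fun n => n ≤ z ∧ z < n + L)).card : ℝ) ≤ L := by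
      exact_mod_cast card_short _ z L
    calc (((Icc 1 (3 * X)).filter (fun n => n ≤ z ∧ z < n + L)).card : ℝ) * (7 * (L : ℝ) * l) ≤ L * (7 * (L : ℝ) * l) := by
          gcongr
      _ = _ := by ring
  have e4 : ∑ z ∈ Ico n0 (n0 + H + L), ‖T z‖ = ∑ z ∈ Ico n0 (n0 + L), ‖T z‖ + ∑ z ∈ Ico (n0 + L) (n0 + H), ‖T z‖ +
      ∑ z ∈ Ico (n0 + H) (n0 + H + L), ‖T z‖ := by
    rw [sum_Ico_consecutive _ (by omega) (by omega), sum_Ico_consecutive _ (by omega) (by omega)]
  have e5 : ∑ z ∈ Ico n0 (n0 + L), ‖T z‖ ≤ (L : ℝ) ^ 2 := by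
    refine (sum_le_sum fun z _ => hTb z).trans ?_
    rw [sum_const, Nat.card_Ico, nsmul_eq_mul, Nat.add_sub_cancel_left, pow_two]
  have e6 : ∑ z ∈ Ico (n0 + H) (n0 + H + L), ‖T z‖ ≤ (L : ℝ) ^ 2 := by
    refine (sum_le_sum fun z _ => hTb z).trans ?_
    rw [sum_const, Nat.card_Ico, nsmul_eq_mul, Nat.add_sub_cancel_left, pow_two]
  have e7 : ∑ z ∈ Ico (n0 + L) (n0 + H), ‖T z‖ ≤ ∑ z ∈ Ico n0 (n0 + H), ‖SW h X L α z‖ + 7 * (L : ℝ) ^ 2 * l * H := by
    refine (sum_le_sum e3).trans ?_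
    rw [sum_add_distrib, sum_const, Nat.card_Ico, nsmul_eq_mul]
    have g1 : ((n0 + H - (n0 + L) : ℕ) : ℝ) ≤ H := by
      have : n0 + H - (n0 + L) ≤ H := by omega
      exact_mod_cast this
    have g2 : ∑ z ∈ Ico (n0 + L) (n0 + H), ‖SW h X L α z‖ ≤ ∑ z ∈ Ico n0 (n0 + H), ‖SW h X L α z‖ := by
      apply sum_le_sum_of_subset_of_nonneg
      · intro z hz
        rw [mem_Ico] at hz ⊢
        omega
      · intro _ _ _
        exact norm_nonneg _
    have g3 : ((n0 + H - (n0 + L) : ℕ) : ℝ) * (7 * (L : ℝ) ^ 2 * l) ≤ H * (7 * (L : ℝ) ^ 2 * l) := by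
      gcongr
    linarith
  linarith

lemma window_eq (H s k z : ℕ) (hs : s < H) (hk : 1 ≤ k) : z ∈ Ico (k * H - s) (k * H - s + H) ↔ kx H s z = k := by
  have hH : 0 < H := by omega
  have h1 : s ≤ k * H := by nlinarith
  unfold kx
  rw [mem_Ico]
  constructor
  · rintro ⟨h2, h3⟩
    rw [Nat.div_eq_iff hH]
    constructor
    · omega
    · omega
  · intro h2
    rw [Nat.div_eq_iff hH] at h2
    obtain ⟨h3, h4⟩ := h2
    constructor <;> omega

set_option maxHeartbeats 1000000 in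
open Classical in
theorem t_M : S_M := by
  intro h hb hE ε hε κ hκ B0
  set ε1 : ℝ := κ * ε / (4 * ((B0 : ℝ) + 1) ^ 2) with hε1
  have hε10 : 0 < ε1 := by positivity
  obtain ⟨W0, X0, hW⟩ := win_l1 h hE ε1 hε10
  set L : ℕ := max W0 1 with hLdef
  have hL1 : 1 ≤ L := le_max_right _ _
  have hL0 : (0 : ℝ) < L := by exact_mod_cast hL1
  set l : ℝ := ε / (28 * L) with hl
  have hl0 : 0 < l := by positivity
  refine ⟨l, hl0, max L ⌈8 * L / ε⌉₊, fun H hH => ⟨max X0 H, fun N hN s hs al G hG => ?_⟩⟩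
  have hHL : L ≤ H := (le_max_left _ _).trans hH
  have hH8 : 8 * (L : ℝ) ≤ ε * H := by
    have h1 : 8 * (L : ℝ) / ε ≤ H := (Nat.le_ceil _).trans (by exact_mod_cast (le_max_right _ _).trans hH)
    rw [div_le_iff₀ hε] at h1
    linarith
  have hX0 : X0 ≤ N := (le_max_left _ _).trans hN
  have hHN : H ≤ N := (le_max_right _ _).trans hN
  have hH0 : 1 ≤ H := by omega
  have hH0' : (0 : ℝ) < H := by exact_mod_cast hH0
  set S : Finset ℕ := (range N).filter (fun n => G (kx H s n)) with hS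
  set K : Finset ℕ := S.image (kx H s) with hK
  have hKG : ∀ k ∈ K, G k ∧ ∃ n, n < N ∧ kx H s n = k := by
    intro k hk
    rw [hK, mem_image] at hk
    obtain ⟨n, hn, rfl⟩ := hk
    rw [hS, mem_filter, mem_range] at hn
    exact ⟨hn.2, n, hn.1, rfl⟩
  have hcard : S.card ≤ H * K.card := by
    apply Finset.card_le_mul_card_image
    intro k hk
    have hk1 := (hG k (hKG k hk).1).1
    have : S.filter (fun x => kx H s x = k) ⊆ Ico (k * H - s) (k * H - s + H) := by
      intro x hx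
      rw [mem_filter] at hx
      exact (window_eq H s k x hs hk1).2 hx.2
    have := card_le_card this
    rw [Nat.card_Ico, Nat.add_sub_cancel_left] at this
    exact this
  set PP : Finset (ℕ × ℕ) := Icc 1 B0 ×ˢ range B0 with hPP
  set f : ℕ → ℝ := fun z => ∑ ba ∈ PP, ‖SW h N L ((ba.2 : ℝ) / ba.1) z‖ with hf
  have hf0 : ∀ z, 0 ≤ f z := fun z => sum_nonneg fun _ _ => norm_nonneg _
  have hgood : ∀ k ∈ K, ε * H * L / 2 ≤ ∑ z ∈ Ico (k * H - s) (k * H - s + H), f z := by
    intro k hk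
    obtain ⟨hGk, n, hnN, hnk⟩ := hKG k hk
    obtain ⟨hk1, ⟨b, hb1, hbB, a, hab⟩, hbig⟩ := hG k hGk
    have hkH : s < k * H := by nlinarith
    have hn0 : 1 ≤ k * H - s := by omega
    have hnw := (window_eq H s k n hs hk1).2 hnk
    rw [mem_Ico] at hnw
    have hXX : k * H - s + H ≤ 3 * N + 1 := by omega
    set a' : ℕ := (a % (b : ℤ)).toNat with ha'
    have hbz : (0 : ℤ) < b := by exact_mod_cast hb1
    have ha'z : (a' : ℤ) = a % (b : ℤ) := Int.toNat_of_nonneg (Int.emod_nonneg _ hbz.ne')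
    have ha'b : a' < b := by
      have := Int.emod_lt_of_pos a hbz
      omega
    set q : ℤ := a / (b : ℤ) with hq
    have haq : (a : ℝ) = b * q + a' := by
      have h1 : (b : ℤ) * (a / (b : ℤ)) + a % (b : ℤ) = a := Int.mul_ediv_add_emod a b
      rw [← ha'z, ← hq] at h1
      exact_mod_cast h1.symm
    have hb0' : (0 : ℝ) < b := by exact_mod_cast hb1
    have hab' : |(al k - q) - (a' : ℝ) / b| ≤ l := by
      have : (al k - q) - (a' : ℝ) / b = al k - a / b := by
        rw [haq]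
        field_simp
        ring
      rw [this]
      exact hab
    have h1 := one_window h hb N L H (k * H - s) hn0 hHL hXX (al k - q) ((a' : ℝ) / b) l hab'
    have h2 : ∑ n ∈ Ico (k * H - s) (k * H - s + H), h n * ee ((n : ℝ) * (al k - q)) =
        ∑ i ∈ range H, h (k * H - s + i) * ee (((k * H - s + i : ℕ) : ℝ) * al k) := by
      rw [sum_Ico_eq_sum_range, Nat.add_sub_cancel_left]
      apply sum_congr rfl
      intro i _
      congr 1
      have : ((k * H - s + i : ℕ) : ℝ) * (al k - q) = ((k * H - s + i : ℕ) : ℝ) * al k + ((-((k * H - s + i : ℕ) : ℤ) * q : ℤ) : ℝ) := by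
        push_cast
        ring
      rw [this, ee_add, ee_int, mul_one]
    rw [h2] at h1
    have h3 : ε * H * L / 2 ≤ ∑ z ∈ Ico (k * H - s) (k * H - s + H), ‖SW h N L ((a' : ℝ) / b) z‖ := by
      have g1 : L * (ε * H) ≤ L * ‖∑ i ∈ range H, h (k * H - s + i) * ee (((k * H - s + i : ℕ) : ℝ) * al k)‖ := by
        gcongr
      have g2 : 7 * (L : ℝ) ^ 2 * l * H = ε * H * L / 4 := by
        rw [hl]
        field_simp
        ring
      have g3 : 2 * (L : ℝ) ^ 2 ≤ ε * H * L / 4 := by nlinarith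
      rw [g2] at h1
      linarith
    refine h3.trans (sum_le_sum fun z _ => ?_)
    rw [hf]
    simp only
    have hmem : (b, a') ∈ PP := by
      rw [hPP, mem_product, mem_Icc, mem_range]
      exact ⟨⟨hb1, hbB⟩, by omega⟩
    have hle := single_le_sum (s := PP) (f := fun ba : ℕ × ℕ => ‖SW h N L ((ba.2 : ℝ) / ba.1) z‖) (a := (b, a'))
      (fun _ _ => norm_nonneg _) hmem
    exact hle
  have hsum1 : (K.card : ℝ) * (ε * H * L / 2) ≤ ∑ z ∈ range (3 * N + 1), f z := by
    have h1 : (K.card : ℝ) * (ε * H * L / 2) ≤ ∑ k ∈ K, ∑ z ∈ Ico (k * H - s) (k * H - s + H), f z := by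
      rw [← nsmul_eq_mul, ← sum_const]
      exact sum_le_sum hgood
    refine h1.trans ?_
    have h2 : ∀ k ∈ K, ∑ z ∈ Ico (k * H - s) (k * H - s + H), f z ≤ ∑ z ∈ range (3 * N + 1), if kx H s z = k then f z else 0 := by
      intro k hk
      obtain ⟨hGk, n, hnN, hnk⟩ := hKG k hk
      have hk1 := (hG k hGk).1
      have hnw := (window_eq H s k n hs hk1).2 hnk
      rw [mem_Ico] at hnw
      rw [← sum_filter]
      apply sum_le_sum_of_subset_of_nonneg
      · intro z hz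
        rw [mem_filter, mem_range]
        refine ⟨?_, (window_eq H s k z hs hk1).1 hz⟩
        rw [mem_Ico] at hz
        omega
      · intro _ _ _
        exact hf0 _
    refine (sum_le_sum h2).trans ?_
    rw [sum_comm]
    apply sum_le_sum
    intro z _
    rw [sum_ite_eq]
    split_ifs
    · exact le_rfl
    · exact hf0 z
  have hsum2 : ∑ z ∈ range (3 * N + 1), f z ≤ (B0 : ℝ) ^ 2 * (ε1 * L * N) := by
    rw [hf]
    simp only
    rw [sum_comm]
    have h1 : ∀ ba ∈ PP, ∑ z ∈ range (3 * N + 1), ‖SW h N L ((ba.2 : ℝ) / ba.1) z‖ ≤ ε1 * L * N := by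
      intro ba _
      exact hW N hX0 L (le_max_left _ _) (hHL.trans hHN) _
    refine (sum_le_sum h1).trans ?_
    rw [sum_const, nsmul_eq_mul, hPP, card_product, Nat.card_Icc, card_range, Nat.add_sub_cancel]
    push_cast
    rw [pow_two]
  have hfin : (H : ℝ) * K.card ≤ κ * N := by
    have h1 : (K.card : ℝ) * (ε * H * L / 2) ≤ (B0 : ℝ) ^ 2 * (ε1 * L * N) := hsum1.trans hsum2
    have h2 : (B0 : ℝ) ^ 2 * ε1 ≤ κ * ε / 4 := by
      rw [hε1]
      rw [← mul_div_assoc, div_le_iff₀ (by positivity)]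
      have : (B0 : ℝ) ^ 2 ≤ ((B0 : ℝ) + 1) ^ 2 := by
        have : (0 : ℝ) ≤ B0 := Nat.cast_nonneg _
        nlinarith
      have h3 : 0 ≤ κ * ε := by positivity
      nlinarith
    have h3 : (H : ℝ) * K.card * (ε * L / 2) ≤ κ * N * (ε * L / 2) := by
      have h4 : (B0 : ℝ) ^ 2 * (ε1 * L * N) = ((B0 : ℝ) ^ 2 * ε1) * (L * N) := by ring
      have h5 : ((B0 : ℝ) ^ 2 * ε1) * (L * N) ≤ κ * ε / 4 * (L * N) := by gcongr
      have h6 : 0 ≤ κ * ε * (L * N) := by positivity
      nlinarith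
    exact le_of_mul_le_mul_right h3 (by positivity)
  calc (S.card : ℝ) ≤ ((H * K.card : ℕ) : ℝ) := by exact_mod_cast hcard
    _ = (H : ℝ) * K.card := by push_cast; ring
    _ ≤ κ * N := hfin

end Pool.Agent.U237.NF.M
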