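import Pool.Agent.U237.NF.Core
import Pool.Agent.U237.NF.C
import Pool.Agent.U237.NF.M
import Pool.Agent.U147.NF.K
import Pool.Agent.U147.NF.F
import Pool.Agent.U608.NF.GR
import Pool.Agent.U307.NF.L1
import Pool.Agent.U307.NF.L2
import Pool.Agent.U951.NF.FA
import Pool.Agent.U451.NF.Z
import Pool.Agent.NH21.Nls.ES

/-!
# Project NF: local Fourier uniformity for frequencies in compact null sets

Packages: K, F (helper147), G, R (helper608), L1, L2 (helper307), FA, THN (helper951), Z (helper451), C, M, Core (helper237),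
E (`NH21/Nls/ES.lean`, starting library).
-/

set_option autoImplicit false
set_option maxHeartbeats 400000

namespace Pool.Agent.U237.NF.Asm

open Finset Filter Topology MeasureTheory
open Pool.Agent.W24.Katai (Mul1 cor)
open Pool.Agent.U237.NF.Lite

theorem s_E : S_E := Pool.Agent.NH21.Nls.es

theorem s_L : S_L := by
  intro η hη c hc
  obtain ⟨B0, τ1, hτ1, y1, h1⟩ := Pool.Agent.U307.NF.t_L1 s_E Pool.Agent.U237.NF.C.t_C η hη c hc
  refine ⟨B0, fun l hl => ?_⟩
  obtain ⟨τ2, hτ2, y2, h2⟩ := Pool.Agent.U307.NF.t_L2 η hη c hc B0 l hl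
  refine ⟨min τ1 τ2, lt_min hτ1 hτ2, max y1 y2, fun y hy A hA W hW hWc β hβ => ?_⟩
  obtain ⟨b, hb1, hb2, a, hab⟩ := h1 y ((le_max_left _ _).trans hy) A hA W hW hWc β (fun p hp => by
    obtain ⟨x, hx, hx'⟩ := hβ p hp
    exact ⟨x, hx, hx'.trans (min_le_left _ _)⟩)
  refine ⟨b, hb1, hb2, a, h2 y ((le_max_right _ _).trans hy) A hA W hW hWc β (fun p hp => ?_) b a hb1 hb2 hab⟩
  obtain ⟨x, hx, hx'⟩ := hβ p hp
  exact ⟨x, hx, hx'.trans (min_le_right _ _)⟩

theorem s_Core : S_Core :=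
  Pool.Agent.U237.NF.Core.t_Core Pool.Agent.U147.NF.K.t_K Pool.Agent.U451.NF.Z.t_Z Pool.Agent.U608.NF.GR.t_G
    Pool.Agent.U608.NF.GR.t_R s_L Pool.Agent.U237.NF.M.t_M Pool.Agent.U237.NF.C.t_C

/-- **local Fourier uniformity for frequencies in compact null sets** -/
theorem lfu (h : ℕ → ℂ) (hM : Mul1 h) (hE : ExpoSmall h) : LFU h :=
  Pool.Agent.U951.NF.t_FA (Pool.Agent.U147.NF.F.t_F s_Core) Pool.Agent.U951.NF.t_THN h hM hE

end Pool.Agent.U237.NF.Asm
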