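import Pool.Agent.U237.NF.Lite

/-!
# Project NF: the core theorem from the packages K, Z, G, R, L, M and C
-/

set_option autoImplicit false
set_option maxHeartbeats 1000000

namespace Pool.Agent.U237.NF.Core

open Finset Filter Topology
open Pool.Agent.H807R2.Dav (ee norm_ee ee_add ee_int ee_zero)
open Pool.Agent.W24.Katai (Mul1 cor)
open Pool.Agent.U237.NF.Lite

open Classical in
/-- many rich values -/
lemma rich_count (Z : ℕ) (f : ℕ → ℝ) (B c1 : ℝ) (hB : 0 < B) (hf1 : ∀ z, f z ≤ B)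
    (hsum : 2 * c1 * B * Z ≤ ∑ z ∈ range Z, f z) :
    c1 * Z ≤ (((range Z).filter (fun z => c1 * B ≤ f z)).card : ℝ) := by
  by_cases hc : c1 < 0
  · have h1 : c1 * Z ≤ 0 := mul_nonpos_of_nonpos_of_nonneg hc.le (Nat.cast_nonneg _)
    exact h1.trans (Nat.cast_nonneg _)
  push Not at hc
  have h1 : ∑ z ∈ range Z, f z ≤ ∑ z ∈ range Z, (c1 * B + if c1 * B ≤ f z then B else 0) := by
    apply sum_le_sum
    intro z _
    have := mul_nonneg hc hB.le
    split_ifs with h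
    · have := hf1 z
      linarith
    · push Not at h
      linarith
  rw [sum_add_distrib, ← sum_filter, sum_const, sum_const, card_range, nsmul_eq_mul, nsmul_eq_mul] at h1
  have h2 : (c1 * Z) * B ≤ (((range Z).filter (fun z => c1 * B ≤ f z)).card : ℝ) * B := by nlinarith
  exact le_of_mul_le_mul_right h2 hB

open Classical in
/-- the pull back of a set by the division by `p` -/
lemma pull_count (Z p : ℕ) (hp : 0 < p) (Q : ℕ → Prop) :
    ((range Z).filter (fun z => Q (z / p))).card ≤ p * ((range (Z / p + 1)).filter Q).card := by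
  have h1 := Finset.card_le_mul_card_image (f := fun z => z / p) ((range Z).filter (fun z => Q (z / p))) p (by
    intro n _
    have : ((range Z).filter (fun z => Q (z / p))).filter (fun z => z / p = n) ⊆ Ico (n * p) (n * p + p) := by
      intro z hz
      rw [mem_filter] at hz
      have h2 := (Nat.div_eq_iff hp).1 hz.2
      rw [mem_Ico]
      omega
    have := card_le_card this
    rwa [Nat.card_Ico, Nat.add_sub_cancel_left] at this)
  refine h1.trans (Nat.mul_le_mul_left _ (card_le_card ?_))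
  intro n hn
  rw [mem_image] at hn
  obtain ⟨z, hz, rfl⟩ := hn
  rw [mem_filter, mem_range] at hz
  rw [mem_filter, mem_range]
  refine ⟨?_, hz.2⟩
  have : z / p ≤ Z / p := Nat.div_le_div_right hz.1.le
  omega

/-- good windows near rationals -/
def Gd (om : ℕ → ℂ) (al : ℕ → ℝ) (B0 : ℕ) (l : ℝ) (k : ℕ) : Prop :=
  om k ≠ 0 ∧ ∃ b : ℕ, 1 ≤ b ∧ b ≤ B0 ∧ ∃ a : ℤ, |al k - a / b| ≤ l

/-- the distance to the integers, from the norm in the circle -/
lemma exists_int_of_norm {x e : ℝ} (hx : ‖(x : UnitAddCircle)‖ ≤ e) : ∃ m : ℤ, |x - m| ≤ e := by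
  rw [UnitAddCircle.norm_eq] at hx
  exact ⟨round x, hx⟩

lemma norm_neg_coe (x y : ℝ) : ‖((x - y : ℝ) : UnitAddCircle)‖ = ‖((y - x : ℝ) : UnitAddCircle)‖ := by
  rw [← norm_neg, ← AddCircle.coe_neg]
  congr 2
  ring

open Classical in
lemma rich_step (hG : S_G) (hR : S_R) (y H s z B0 : ℕ) (om : ℕ → ℂ) (al : ℕ → ℝ) (A : Set UnitAddCircle)
    (C c1 l τ : ℝ)
    (hLy : ∀ W : Finset ℕ, W ⊆ PB y → c1 ^ 2 / 16 * (y : ℝ) / Real.log y ≤ (W.card : ℝ) → ∀ β : ℝ,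
      (∀ p ∈ W, ∃ x ∈ A, ‖(((p : ℝ) * β : ℝ) : UnitAddCircle) - x‖ ≤ τ) →
      ∃ b : ℕ, 1 ≤ b ∧ b ≤ B0 ∧ ∃ a : ℤ, |β - a / b| * y ≤ l / 4)
    (hA : ∀ k, ((al k : ℝ) : UnitAddCircle) ∈ A)
    (hP1 : 16 / c1 ^ 2 ≤ ((PB y).card : ℝ)) (hP2 : (y : ℝ) / (2 * Real.log y) ≤ ((PB y).card : ℝ))
    (hc : 0 < c1) (hc1 : c1 ≤ 1) (hy : 1 ≤ y) (hH0 : 0 < H) (hH1 : 16 * (y : ℝ) ^ 2 * (C * y / H) < 1) (hH2 : C / H ≤ τ)
    (hH3 : C / H ≤ l / 2)
    (hrich : c1 * ((PB y).card : ℝ) ^ 2 ≤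
      (((PB y ×ˢ PB y).filter (fun pq => Rel H s om al (C * y / H) z pq.1 pq.2)).card : ℝ)) :
    c1 ^ 2 / 8 * ((PB y).card : ℝ) ≤
      (((PB y).filter (fun p => Gd om al B0 l (kx H s (z / p)))).card : ℝ) := by
  have hy0 : (0 : ℝ) < y := by exact_mod_cast hy
  have hH0' : (0 : ℝ) < H := by exact_mod_cast hH0
  have hsymm : ∀ p q, Rel H s om al (C * y / H) z p q → Rel H s om al (C * y / H) z q p := by
    rintro p q ⟨h1, h2, h3⟩
    refine ⟨h2, h1, ?_⟩
    rw [norm_neg_coe]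
    exact h3
  obtain ⟨p0, hp0, p1, hp1, hne, hcard⟩ := hG (PB y) (fun p q => Rel H s om al (C * y / H) z p q) c1 hc hc1 hsymm
    (by
      refine le_trans ?_ hP1
      gcongr
      norm_num) hrich
  set W : Finset ℕ := (PB y).filter (fun p => p ≠ p0 ∧ p ≠ p1 ∧ Rel H s om al (C * y / H) z p p0 ∧
    Rel H s om al (C * y / H) z p p1) with hW
  have hWP : W ⊆ PB y := filter_subset _ _
  have hW2 : 2 ≤ W.card := by
    have h1 : (2 : ℝ) ≤ W.card := by
      refine le_trans ?_ hcard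
      rw [div_le_iff₀ (by positivity)] at hP1
      linarith
    exact_mod_cast h1
  obtain ⟨β, hβ⟩ := hR y W (C * y / H) (fun p => al (kx H s (z / p))) p0 p1 hy hp0 hp1 hne hWP
    (by simp [hW]) (by simp [hW]) hW2 hH1 (by
      intro p hp
      rw [hW, mem_filter] at hp
      obtain ⟨_, _, _, h1, h2⟩ := hp
      constructor
      · rw [norm_neg_coe]
        exact h1.2.2
      · rw [norm_neg_coe]
        exact h2.2.2)
  have he : C * y / H / y = C / H := by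
    field_simp
  rw [he] at hβ
  obtain ⟨b, hb1, hbB, a, hab⟩ := hLy W hWP (by
    refine le_trans ?_ hcard
    calc c1 ^ 2 / 16 * (y : ℝ) / Real.log y = c1 ^ 2 / 8 * ((y : ℝ) / (2 * Real.log y)) := by
          by_cases hlog : Real.log (y : ℝ) = 0
          · rw [hlog]; simp
          · field_simp
            ring
      _ ≤ _ := by gcongr) β (by
    intro p hp
    refine ⟨_, hA (kx H s (z / p)), ?_⟩
    have := hβ p hp
    rw [← AddCircle.coe_sub]
    exact this.trans hH2)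
  refine le_trans hcard ?_
  have hsub : W ⊆ (PB y).filter (fun p => Gd om al B0 l (kx H s (z / p))) := by
    intro p hp
    have hpP := hWP hp
    have h1 := hβ p hp
    rw [hW, mem_filter] at hp
    rw [mem_filter]
    refine ⟨hpP, hp.2.2.2.1.1, b, hb1, hbB, ?_⟩
    obtain ⟨m, hm⟩ := exists_int_of_norm h1
    refine ⟨p * a - m * b, ?_⟩
    have hb0 : (0 : ℝ) < b := by exact_mod_cast hb1
    have e1 : al (kx H s (z / p)) - ((p * a - m * b : ℤ) : ℝ) / b =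
        -((p : ℝ) * β - al (kx H s (z / p)) - m) + p * (β - a / b) := by
      push_cast
      field_simp
      ring
    rw [e1]
    refine (abs_add_le _ _).trans ?_
    rw [abs_neg, abs_mul, abs_of_nonneg (Nat.cast_nonneg p : (0 : ℝ) ≤ p)]
    have hp2 : (p : ℝ) ≤ 2 * y := by
      unfold PB at hpP
      rw [mem_filter, mem_Ioc] at hpP
      exact_mod_cast hpP.1.2
    have e2 : (p : ℝ) * |β - a / b| ≤ l / 2 := by
      calc (p : ℝ) * |β - a / b| ≤ 2 * y * |β - a / b| := by gcongr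
        _ = 2 * (|β - a / b| * y) := by ring
        _ ≤ 2 * (l / 4) := by gcongr
        _ = l / 2 := by ring
    linarith [hm.trans hH3]
  exact_mod_cast card_le_card hsub

lemma norm_Fw (H s : ℕ) (om : ℕ → ℂ) (al : ℕ → ℝ) (ho : ∀ k, ‖om k‖ ≤ 1) (n : ℕ) : ‖Fw H s om al n‖ ≤ 1 := by
  unfold Fw
  rw [norm_mul, norm_ee, mul_one]
  exact ho _

/-- the number of primes in a dyadic block tends to infinity -/
lemma PB_large (hC : S_C) (K : ℝ) : ∃ y0 : ℕ, ∀ y : ℕ, y0 ≤ y → K ≤ ((PB y).card : ℝ) ∧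
    (y : ℝ) / (2 * Real.log y) ≤ ((PB y).card : ℝ) := by
  obtain ⟨y0, hy0⟩ := hC
  have h1 : Tendsto (fun y : ℝ => y / Real.log y) atTop atTop := by
    have h2 : Tendsto (fun y : ℝ => Real.log y / y) atTop (𝓝[>] 0) := by
      rw [tendsto_nhdsWithin_iff]
      refine ⟨?_, ?_⟩
      · have := Real.isLittleO_log_id_atTop.tendsto_div_nhds_zero
        simpa using this
      · filter_upwards [eventually_gt_atTop (1 : ℝ)] with y hy
        exact div_pos (Real.log_pos hy) (by linarith)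
    have h3 := h2.inv_tendsto_nhdsGT_zero
    refine h3.congr fun y => ?_
    simp
  have h4 := (h1.comp tendsto_natCast_atTop_atTop).eventually_ge_atTop (2 * K)
  obtain ⟨y1, hy1⟩ := eventually_atTop.1 h4
  refine ⟨max y0 y1, fun y hy => ?_⟩
  have h5 := hy0 y ((le_max_left _ _).trans hy)
  have h6 := hy1 y ((le_max_right _ _).trans hy)
  refine ⟨?_, h5⟩
  simp only [Function.comp_apply] at h6
  have : (y : ℝ) / (2 * Real.log y) = (y / Real.log y) / 2 := by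
    rw [div_div, mul_comm]
  rw [this] at h5
  linarith

open Classical in
/-- the contradiction at one block -/
lemma block (hG : S_G) (hR : S_R) (y H s M B0 N0M : ℕ) (om : ℕ → ℂ) (al : ℕ → ℝ) (A : Set UnitAddCircle)
    (C c1 l τ κ : ℝ)
    (hLy : ∀ W : Finset ℕ, W ⊆ PB y → c1 ^ 2 / 16 * (y : ℝ) / Real.log y ≤ (W.card : ℝ) → ∀ β : ℝ,
      (∀ p ∈ W, ∃ x ∈ A, ‖(((p : ℝ) * β : ℝ) : UnitAddCircle) - x‖ ≤ τ) →
      ∃ b : ℕ, 1 ≤ b ∧ b ≤ B0 ∧ ∃ a : ℤ, |β - a / b| * y ≤ l / 4)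
    (hA : ∀ k, ((al k : ℝ) : UnitAddCircle) ∈ A)
    (hP1 : 16 / c1 ^ 2 ≤ ((PB y).card : ℝ)) (hP2 : (y : ℝ) / (2 * Real.log y) ≤ ((PB y).card : ℝ))
    (hc : 0 < c1) (hc1 : c1 ≤ 1) (hy : 1 ≤ y) (hH0 : 0 < H) (hH1 : 16 * (y : ℝ) ^ 2 * (C * y / H) < 1) (hH2 : C / H ≤ τ)
    (hH3 : C / H ≤ l / 2) (hκ : 16 * κ < c1 ^ 3) (hκ0 : 0 ≤ κ)
    (hMN : N0M ≤ M)
    (hM : ∀ N : ℕ, N0M ≤ N → (((range N).filter (fun n => Gd om al B0 l (kx H s n))).card : ℝ) ≤ κ * N)
    (hsum : 2 * c1 * ((PB y).card : ℝ) ^ 2 * ((4 * y ^ 2 * (M + 1) : ℕ) : ℝ) ≤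
      ∑ z ∈ range (4 * y ^ 2 * (M + 1)),
        (((PB y ×ˢ PB y).filter (fun pq => Rel H s om al (C * y / H) z pq.1 pq.2)).card : ℝ)) : False := by
  set Z : ℕ := 4 * y ^ 2 * (M + 1) with hZ
  have hPpos : (0 : ℝ) < ((PB y).card : ℝ) := lt_of_lt_of_le (by positivity) hP1
  have hy2 : 1 ≤ y ^ 2 := Nat.one_le_pow _ _ hy
  have hZpos : 0 < Z := by rw [hZ]; positivity
  have hZpos' : (0 : ℝ) < Z := by exact_mod_cast hZpos
  have h1 := rich_count Z (fun z => (((PB y ×ˢ PB y).filter (fun pq => Rel H s om al (C * y / H) z pq.1 pq.2)).card : ℝ))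
    (((PB y).card : ℝ) ^ 2) c1 (by positivity) (by
      intro z
      have := card_le_card (filter_subset (fun pq : ℕ × ℕ => Rel H s om al (C * y / H) z pq.1 pq.2) (PB y ×ˢ PB y))
      rw [card_product] at this
      rw [pow_two]
      exact_mod_cast this) hsum
  set Rz : Finset ℕ := (range Z).filter (fun z => c1 * ((PB y).card : ℝ) ^ 2 ≤
    (((PB y ×ˢ PB y).filter (fun pq => Rel H s om al (C * y / H) z pq.1 pq.2)).card : ℝ)) with hRz
  -- lower bound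
  have h2 : c1 * Z * (c1 ^ 2 / 8 * ((PB y).card : ℝ)) ≤
      ∑ z ∈ range Z, (((PB y).filter (fun p => Gd om al B0 l (kx H s (z / p)))).card : ℝ) := by
    calc c1 * Z * (c1 ^ 2 / 8 * ((PB y).card : ℝ)) ≤ (Rz.card : ℝ) * (c1 ^ 2 / 8 * ((PB y).card : ℝ)) := by gcongr
      _ = ∑ z ∈ Rz, c1 ^ 2 / 8 * ((PB y).card : ℝ) := by rw [sum_const, nsmul_eq_mul]
      _ ≤ ∑ z ∈ Rz, (((PB y).filter (fun p => Gd om al B0 l (kx H s (z / p)))).card : ℝ) := by
          apply sum_le_sum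
          intro z hz
          rw [hRz, mem_filter] at hz
          exact rich_step hG hR y H s z B0 om al A C c1 l τ hLy hA hP1 hP2 hc hc1 hy hH0 hH1 hH2 hH3 hz.2
      _ ≤ _ := by
          apply sum_le_sum_of_subset_of_nonneg (filter_subset _ _)
          intro _ _ _
          exact Nat.cast_nonneg _
  -- upper bound
  have h3 : ∑ z ∈ range Z, (((PB y).filter (fun p => Gd om al B0 l (kx H s (z / p)))).card : ℝ) =
      ∑ p ∈ PB y, (((range Z).filter (fun z => Gd om al B0 l (kx H s (z / p)))).card : ℝ) := by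
    simp only [card_filter]
    push_cast
    rw [sum_comm]
  have h4 : ∀ p ∈ PB y, (((range Z).filter (fun z => Gd om al B0 l (kx H s (z / p)))).card : ℝ) ≤ 2 * κ * Z := by
    intro p hp
    unfold PB at hp
    rw [mem_filter, mem_Ioc] at hp
    have hp0 : 0 < p := hp.2.pos
    have g1 := pull_count Z p hp0 (fun n => Gd om al B0 l (kx H s n))
    have g2 : N0M ≤ Z / p + 1 := by
      have : M ≤ Z / p := by
        rw [Nat.le_div_iff_mul_le hp0, hZ]
        calc M * p ≤ M * (2 * y) := Nat.mul_le_mul_left _ hp.1.2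
          _ ≤ (M + 1) * (4 * y ^ 2) := by
              apply Nat.mul_le_mul (by omega)
              nlinarith
          _ = _ := by ring
      omega
    have g3 := hM (Z / p + 1) g2
    have g4 : (p : ℝ) * ((Z / p + 1 : ℕ) : ℝ) ≤ 2 * Z := by
      have g5 : p * (Z / p) ≤ Z := Nat.mul_div_le _ _
      have g6 : p ≤ Z := by
        rw [hZ]
        calc p ≤ 2 * y := hp.1.2
          _ ≤ 4 * y ^ 2 * 1 := by nlinarith
          _ ≤ _ := by
              apply Nat.mul_le_mul_left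
              omega
      have : p * (Z / p + 1) ≤ 2 * Z := by
        rw [mul_add, mul_one]
        omega
      exact_mod_cast this
    calc (((range Z).filter (fun z => Gd om al B0 l (kx H s (z / p)))).card : ℝ) ≤
          ((p * ((range (Z / p + 1)).filter (fun n => Gd om al B0 l (kx H s n))).card : ℕ) : ℝ) := by exact_mod_cast g1
      _ = p * (((range (Z / p + 1)).filter (fun n => Gd om al B0 l (kx H s n))).card : ℝ) := by push_cast; ring
      _ ≤ p * (κ * ((Z / p + 1 : ℕ) : ℝ)) := by gcongr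
      _ = κ * (p * ((Z / p + 1 : ℕ) : ℝ)) := by ring
      _ ≤ κ * (2 * Z) := by gcongr
      _ = 2 * κ * Z := by ring
  have h5 := (sum_le_sum h4)
  rw [← h3, sum_const, nsmul_eq_mul] at h5
  have h6 := h2.trans h5
  have h7 : 0 < ((PB y).card : ℝ) * Z := by positivity
  nlinarith

open Classical in
/-- the core theorem -/
theorem t_Core (hK : S_K) (hZ : S_Z) (hG : S_G) (hR : S_R) (hL : S_L) (hM : S_M) (hC : S_C) : S_Core := by
  intro h hMul hE η hη ε hε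
  by_cases hε1 : 1 < ε
  · -- trivial
    refine ⟨0, fun H _ => ⟨0, fun N _ A _ s _ om al ho _ _ _ => ?_⟩⟩
    refine (norm_sum_le _ _).trans ?_
    have h1 : ∀ n ∈ Ioc 0 N, ‖h n * Fw H s om al n‖ ≤ 1 := by
      intro n _
      rw [norm_mul]
      calc ‖h n‖ * ‖Fw H s om al n‖ ≤ 1 * 1 := mul_le_mul (hMul.1 n) (norm_Fw H s om al ho n) (norm_nonneg _) zero_le_one
        _ = 1 := one_mul 1
    refine (sum_le_sum h1).trans ?_
    rw [sum_const, Nat.card_Ioc, nsmul_eq_mul, mul_one, Nat.sub_zero]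
    have : (0 : ℝ) ≤ N := Nat.cast_nonneg _
    nlinarith
  push Not at hε1
  set c : ℝ := ε ^ 2 / 16 with hcdef
  have hc0 : 0 < c := by positivity
  have hc1' : c ≤ 1 := by
    rw [hcdef]
    nlinarith
  set c1 : ℝ := c / 64 with hc1def
  have hc10 : 0 < c1 := by positivity
  have hc11 : c1 ≤ 1 := by
    rw [hc1def]
    linarith
  obtain ⟨B0, hB0⟩ := hL η hη (c1 ^ 2 / 16) (by positivity)
  set κ : ℝ := c1 ^ 3 / 32 with hκdef
  have hκ0 : 0 < κ := by positivity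
  obtain ⟨l, hl0, H0M, hH0M⟩ := hM h hMul.1 hE ε hε κ hκ0 B0
  obtain ⟨τ, hτ0, y0, hy0⟩ := hB0 (l / 4) (by positivity)
  obtain ⟨y1, hy1⟩ := PB_large hC (16 / c1 ^ 2)
  obtain ⟨k0, hk0⟩ : ∃ k0 : ℕ, max y0 y1 ≤ 2 ^ k0 := ⟨max y0 y1, (Nat.lt_two_pow_self).le⟩
  obtain ⟨k1, N0K, hK1⟩ := hK ε hε k0
  obtain ⟨C, hC1, hCZ⟩ := hZ c hc0 hc1'
  have hC0 : 0 < C := by linarith
  -- the bound for H
  set Y : ℕ := 2 ^ k1 with hY
  have hY1 : 1 ≤ Y := Nat.one_le_two_pow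
  have hY1' : (1 : ℝ) ≤ Y := by exact_mod_cast hY1
  refine ⟨max H0M (⌈C * Y + 17 * Y ^ 3 * C + C / τ + 2 * C / l⌉₊ + 1), fun H hH => ?_⟩
  have hHM : H0M ≤ H := (le_max_left _ _).trans hH
  have hHbig : C * Y + 17 * Y ^ 3 * C + C / τ + 2 * C / l < H := by
    have h1 : ⌈C * Y + 17 * Y ^ 3 * C + C / τ + 2 * C / l⌉₊ + 1 ≤ H := (le_max_right _ _).trans hH
    have h2 := Nat.le_ceil (C * Y + 17 * Y ^ 3 * C + C / τ + 2 * C / l)
    have h3 : ((⌈C * Y + 17 * Y ^ 3 * C + C / τ + 2 * C / l⌉₊ : ℕ) : ℝ) + 1 ≤ H := by exact_mod_cast h1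
    linarith
  have hp1 : 0 < C * Y := by positivity
  have hp2 : 0 < 17 * (Y : ℝ) ^ 3 * C := by positivity
  have hp3 : 0 < C / τ := by positivity
  have hp4 : 0 < 2 * C / l := by positivity
  have hHr0 : (0 : ℝ) < H := by linarith
  have hH0 : 0 < H := by exact_mod_cast hHr0
  have hH2 : C / H ≤ τ := by
    have h1 : C / τ ≤ H := by linarith
    rw [div_le_iff₀ hτ0] at h1
    rw [div_le_iff₀ hHr0]
    linarith
  have hH3 : C / H ≤ l / 2 := by
    have h1 : 2 * C / l ≤ H := by linarith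
    rw [div_le_iff₀ hl0] at h1
    rw [div_le_iff₀ hHr0]
    linarith
  have hyY : ∀ k : ℕ, k < k1 → ((2 ^ k : ℕ) : ℝ) ≤ Y := by
    intro k hk
    have : 2 ^ k ≤ 2 ^ k1 := Nat.pow_le_pow_right (by norm_num) hk.le
    exact_mod_cast this
  obtain ⟨N0M, hN0M⟩ := hH0M H hHM
  have hM0ex : ∀ k : ℕ, ∃ M0 : ℕ, k < k1 → ∀ M : ℕ, M0 ≤ M →
      ∀ s : ℕ, s < H → ∀ (om : ℕ → ℂ) (al : ℕ → ℝ), (∀ k, ‖om k‖ ≤ 1) → ∀ m : ℕ → ℕ → ℕ,
      (∀ p ∈ PB (2 ^ k), ∀ q ∈ PB (2 ^ k), m p q ≤ M) →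
      c * ((PB (2 ^ k)).card : ℝ) ^ 2 * M ≤ ∑ p ∈ PB (2 ^ k), ∑ q ∈ PB (2 ^ k), ‖cor (Fw H s om al) p q (m p q)‖ →
      c / 32 * ((PB (2 ^ k)).card : ℝ) ^ 2 * ((4 * (2 ^ k) ^ 2 * (M + 1) : ℕ) : ℝ) ≤
        ∑ z ∈ range (4 * (2 ^ k) ^ 2 * (M + 1)),
          (((PB (2 ^ k) ×ˢ PB (2 ^ k)).filter (fun pq => Rel H s om al (C * ((2 ^ k : ℕ) : ℝ) / H) z pq.1 pq.2)).card : ℝ) := by
    intro k
    by_cases hk : k < k1
    · have h1 : C * ((2 ^ k : ℕ) : ℝ) ≤ H := by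
        have h2 : C * ((2 ^ k : ℕ) : ℝ) ≤ C * Y := by
          gcongr
          exact Nat.pow_le_pow_right (by norm_num) hk.le
        linarith
      obtain ⟨M0, hM0⟩ := hCZ (2 ^ k) H Nat.one_le_two_pow h1
      exact ⟨M0, fun _ => hM0⟩
    · exact ⟨0, fun h => absurd h hk⟩
  choose M0 hM0 using hM0ex
  set Mx : ℕ := N0M + ∑ k ∈ range k1, M0 k with hMx
  refine ⟨max N0K (2 ^ k1 * Mx), fun N hN A hA s hs om al ho ho0 hal hbig => ?_⟩
  by_contra hcon
  push Not at hcon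
  have hNK : N0K ≤ N := (le_max_left _ _).trans hN
  have hNM : 2 ^ k1 * Mx ≤ N := (le_max_right _ _).trans hN
  obtain ⟨k, hk0k, hkk1, hcork⟩ := hK1 N hNK (Fw H s om al) h (norm_Fw H s om al ho) hMul hcon.le
  set M : ℕ := N / 2 ^ k with hMdef
  have hMMx : Mx ≤ M := by
    rw [hMdef, Nat.le_div_iff_mul_le (by positivity)]
    calc Mx * 2 ^ k ≤ Mx * 2 ^ k1 := Nat.mul_le_mul_left _ (Nat.pow_le_pow_right (by norm_num) hkk1.le)
      _ = 2 ^ k1 * Mx := by ring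
      _ ≤ N := hNM
  have hM0M : M0 k ≤ M := by
    have h1 : M0 k ≤ ∑ k ∈ range k1, M0 k := single_le_sum (s := range k1) (f := M0) (fun _ _ => Nat.zero_le _) (mem_range.2 hkk1)
    omega
  have hNMM : N0M ≤ M := by omega
  have hrel := hM0 k hkk1 M hM0M s hs om al ho (fun p q => min (N / p) (N / q)) (by
    intro p hp q _
    unfold PB at hp
    rw [mem_filter, mem_Ioc] at hp
    exact (min_le_left _ _).trans (Nat.div_le_div_left hp.1.1.le (by positivity))) (by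
    refine le_trans ?_ hcork
    gcongr
    rw [hMdef]
    have := @Nat.cast_div_le ℝ _ _ _ N (2 ^ k)
    simpa using this)
  have hy : max y0 y1 ≤ 2 ^ k := hk0.trans (Nat.pow_le_pow_right (by norm_num) hk0k)
  have hyr : (0 : ℝ) < ((2 ^ k : ℕ) : ℝ) := by positivity
  refine block hG hR (2 ^ k) H s M B0 N0M om al A C c1 l τ κ (hy0 (2 ^ k) ((le_max_left _ _).trans hy) A hA) hal
    (hy1 (2 ^ k) ((le_max_right _ _).trans hy)).1 (hy1 (2 ^ k) ((le_max_right _ _).trans hy)).2 hc10 hc11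
    Nat.one_le_two_pow hH0 ?_ hH2 hH3 ?_ hκ0.le hNMM ?_ ?_
  · -- 16 y^2 (C y / H) < 1
    have h1 := hyY k hkk1
    have h2 : 16 * (((2 ^ k : ℕ) : ℝ)) ^ 2 * (C * ((2 ^ k : ℕ) : ℝ)) ≤ 16 * (Y : ℝ) ^ 3 * C := by
      calc 16 * (((2 ^ k : ℕ) : ℝ)) ^ 2 * (C * ((2 ^ k : ℕ) : ℝ)) = 16 * (((2 ^ k : ℕ) : ℝ)) ^ 3 * C := by ring
        _ ≤ _ := by gcongr
    rw [← mul_div_assoc, div_lt_one hHr0]
    nlinarith
  · rw [hκdef]
    have : 0 < c1 ^ 3 := by positivity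
    linarith
  · intro N' hN'
    refine hN0M N' hN' s hs al (fun k => Gd om al B0 l k) ?_
    intro j hj
    obtain ⟨hj1, hj2⟩ := hj
    refine ⟨?_, hj2, hbig j hj1⟩
    by_contra hj3
    have : j = 0 := by omega
    rw [this] at hj1
    exact hj1 ho0
  · have : 2 * c1 = c / 32 := by rw [hc1def]; ring
    rw [this]
    exact hrel

end Pool.Agent.U237.NF.Core
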