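import Pool.Agent.H807R2.Dav1
import Pool.Agent.W24.Katai
import Pool.Agent.TH423.SH.PAIP

/-!
# Project NF: Möbius disjointness and frequencies in null sets: statements of the packages

Target: (1) for every compact set `K` of measure zero, `∑_{n < N} sup_{α ∈ K} |∑_{i < H} μ(n + i) e(i α)| = o(H N)` (natural
averages, `H → ∞` after `N`), for all multiplicative functions with small exponential sums; (2) Sarnak's conjecture for all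
systems whose ergodic measures have discrete spectrum with eigenvalues in a countable union of compact null sets
(for example: badly approximable).

The statements `S_K, …, S_F` are those of `Pool/Agent/NH21/Nls/Stm.lean` (literally; this file has light imports).
`Pool.Agent.TH423.SH.pai` is the prime number theorem in long intervals.
-/

set_option autoImplicit false

namespace Pool.Agent.U237.NF.Lite

open Finset Filter Topology MeasureTheory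
open Pool.Agent.H807R2.Dav (ee)
open Pool.Agent.W24.Katai (Mul1 cor)

universe u

/-- `K` is covered by at most `M` closed arcs of half-length `1/x` -/
def CovR (K : Set UnitAddCircle) (x M : ℝ) : Prop :=
  ∃ F : Finset UnitAddCircle, (F.card : ℝ) ≤ M ∧ ∀ z ∈ K, ∃ y ∈ F, ‖z - y‖ ≤ 1 / x

/-- small exponential sums with slowly varying weights of bounded total variation -/
def ExpoSmall (h : ℕ → ℂ) : Prop := ∀ ε : ℝ, 0 < ε → ∀ A : ℝ, 0 ≤ A →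
    ∃ H₀ : ℝ, ∃ X₀ : ℕ, ∀ X : ℕ, X₀ ≤ X → ∀ H : ℝ, H₀ ≤ H → H ≤ X → ∀ T : ℕ → ℂ,
      (∀ n : ℕ, ‖T n‖ ≤ H) → (∀ n m : ℕ, ‖T n - T m‖ ≤ A * |(n : ℝ) - m|) → (∀ n : ℕ, 3 * X < n → T n = 0) →
      ∀ α : ℝ, ‖∑ n ∈ Icc 1 (3 * X), h n * ee ((n : ℝ) * α) * T n‖ ≤ ε * H * X

/-- the primes in `(y, 2 y]` -/
def PB (y : ℕ) : Finset ℕ := (Ioc y (2 * y)).filter Nat.Prime

/-- the number of the window of `n`; the windows are `{n | (n + s) / H = k}` -/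
def kx (H s n : ℕ) : ℕ := (n + s) / H

/-- the sequence which is `om k * e (n * al k)` on the `k`-th window -/
noncomputable def Fw (H s : ℕ) (om : ℕ → ℂ) (al : ℕ → ℝ) (n : ℕ) : ℂ :=
  om (kx H s n) * ee ((n : ℝ) * al (kx H s n))

/-- the windows of `z / p` and of `z / q` are good and their frequencies are related -/
def Rel (H s : ℕ) (om : ℕ → ℂ) (al : ℕ → ℝ) (e : ℝ) (z p q : ℕ) : Prop :=
  om (kx H s (z / p)) ≠ 0 ∧ om (kx H s (z / q)) ≠ 0 ∧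
    ‖(((p : ℝ) * al (kx H s (z / q)) - (q : ℝ) * al (kx H s (z / p)) : ℝ) : UnitAddCircle)‖ ≤ e

/-- at each scale `1/x` the set is covered by `η x * x` arcs -/
def ThinBy (η : ℝ → ℝ) (A : Set UnitAddCircle) : Prop := ∀ x : ℝ, 1 ≤ x → CovR A x (η x * x)

/-- K: the criterion of Kátai in dyadic blocks of primes -/
def S_K : Prop := ∀ ε : ℝ, 0 < ε → ∀ k0 : ℕ, ∃ k1 N0 : ℕ, ∀ N : ℕ, N0 ≤ N → ∀ F g : ℕ → ℂ,
  (∀ n, ‖F n‖ ≤ 1) → Mul1 g → ε * N ≤ ‖∑ n ∈ Ioc 0 N, g n * F n‖ →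
  ∃ k : ℕ, k0 ≤ k ∧ k < k1 ∧ ε ^ 2 / 16 * ((PB (2 ^ k)).card : ℝ) ^ 2 * ((N : ℝ) / 2 ^ k) ≤
    ∑ p ∈ PB (2 ^ k), ∑ q ∈ PB (2 ^ k), ‖cor F p q (min (N / p) (N / q))‖

open Classical in
/-- Z: from correlations along pairs of primes to relations between the frequencies -/
def S_Z : Prop := ∀ c : ℝ, 0 < c → c ≤ 1 → ∃ C : ℝ, 1 ≤ C ∧ ∀ y H : ℕ, 1 ≤ y → C * y ≤ H → ∃ M0 : ℕ, ∀ M : ℕ, M0 ≤ M →
  ∀ s : ℕ, s < H → ∀ (om : ℕ → ℂ) (al : ℕ → ℝ), (∀ k, ‖om k‖ ≤ 1) → ∀ m : ℕ → ℕ → ℕ, (∀ p ∈ PB y, ∀ q ∈ PB y, m p q ≤ M) →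
  c * ((PB y).card : ℝ) ^ 2 * M ≤ ∑ p ∈ PB y, ∑ q ∈ PB y, ‖cor (Fw H s om al) p q (m p q)‖ →
  c / 32 * ((PB y).card : ℝ) ^ 2 * ((4 * y ^ 2 * (M + 1) : ℕ) : ℝ) ≤
    ∑ z ∈ range (4 * y ^ 2 * (M + 1)), (((PB y ×ˢ PB y).filter (fun pq => Rel H s om al (C * y / H) z pq.1 pq.2)).card : ℝ)

open Classical in
/-- G: two vertices with many common neighbours -/
def S_G : Prop := ∀ (P : Finset ℕ) (R : ℕ → ℕ → Prop) (c : ℝ), 0 < c → c ≤ 1 → (∀ p q, R p q → R q p) →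
  4 / c ^ 2 ≤ (P.card : ℝ) → c * (P.card : ℝ) ^ 2 ≤ (((P ×ˢ P).filter (fun pq => R pq.1 pq.2)).card : ℝ) →
  ∃ p0 ∈ P, ∃ p1 ∈ P, p0 ≠ p1 ∧
    c ^ 2 / 8 * P.card ≤ ((P.filter (fun p => p ≠ p0 ∧ p ≠ p1 ∧ R p p0 ∧ R p p1)).card : ℝ)

/-- R: a common root of the frequencies -/
def S_R : Prop := ∀ (y : ℕ) (W : Finset ℕ) (e : ℝ) (al : ℕ → ℝ) (p0 p1 : ℕ), 1 ≤ y → p0 ∈ PB y → p1 ∈ PB y → p0 ≠ p1 →
  W ⊆ PB y → p0 ∉ W → p1 ∉ W → 2 ≤ W.card → 16 * (y : ℝ) ^ 2 * e < 1 →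
  (∀ p ∈ W, ‖(((p0 : ℝ) * al p - (p : ℝ) * al p0 : ℝ) : UnitAddCircle)‖ ≤ e ∧
    ‖(((p1 : ℝ) * al p - (p : ℝ) * al p1 : ℝ) : UnitAddCircle)‖ ≤ e) →
  ∃ β : ℝ, ∀ p ∈ W, ‖(((p : ℝ) * β - al p : ℝ) : UnitAddCircle)‖ ≤ e / y

/-- E: large exponential sums over primes (proved in `NH21/Nls/ES.lean`; use it as a hypothesis) -/
def S_E : Prop := ∀ c : ℝ, 0 < c → ∃ B N0 : ℕ, ∀ N : ℕ, N0 ≤ N → ∀ α : ℝ,
  c * N ≤ ‖∑ n ∈ Icc 1 N, ((ArithmeticFunction.vonMangoldt n : ℝ) : ℂ) * ee ((n : ℝ) * α)‖ →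
  ∃ b : ℕ, 1 ≤ b ∧ b ≤ B ∧ ∃ a : ℤ, |α - a / b| ≤ B / N

/-- C: the number of primes in a dyadic block -/
def S_C : Prop := ∃ y0 : ℕ, ∀ y : ℕ, y0 ≤ y → (y : ℝ) / (2 * Real.log y) ≤ ((PB y).card : ℝ)

/-- L: primes with dilates near a thin set -/
def S_L : Prop := ∀ η : ℝ → ℝ, Tendsto η atTop (𝓝 0) → ∀ c : ℝ, 0 < c → ∃ B0 : ℕ, ∀ l : ℝ, 0 < l →
  ∃ τ : ℝ, 0 < τ ∧ ∃ y0 : ℕ, ∀ y : ℕ, y0 ≤ y → ∀ A : Set UnitAddCircle, ThinBy η A → ∀ W : Finset ℕ, W ⊆ PB y →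
  c * (y : ℝ) / Real.log y ≤ (W.card : ℝ) → ∀ β : ℝ,
  (∀ p ∈ W, ∃ x ∈ A, ‖(((p : ℝ) * β : ℝ) : UnitAddCircle) - x‖ ≤ τ) →
  ∃ b : ℕ, 1 ≤ b ∧ b ≤ B0 ∧ ∃ a : ℤ, |β - a / b| * y ≤ l

/-- L1, first half of L: the dilates are near a thin set, so `β` is within `B0 / y` of a rational with
bounded denominator -/
def S_L1 : Prop := ∀ η : ℝ → ℝ, Tendsto η atTop (𝓝 0) → ∀ c : ℝ, 0 < c → ∃ B0 : ℕ,
  ∃ τ : ℝ, 0 < τ ∧ ∃ y0 : ℕ, ∀ y : ℕ, y0 ≤ y → ∀ A : Set UnitAddCircle, ThinBy η A → ∀ W : Finset ℕ, W ⊆ PB y →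
  c * (y : ℝ) / Real.log y ≤ (W.card : ℝ) → ∀ β : ℝ,
  (∀ p ∈ W, ∃ x ∈ A, ‖(((p : ℝ) * β : ℝ) : UnitAddCircle) - x‖ ≤ τ) →
  ∃ b : ℕ, 1 ≤ b ∧ b ≤ B0 ∧ ∃ a : ℤ, |β - a / b| * y ≤ B0

/-- L2, second half of L: if `β` is within `B / y` of `a / b`, `b ≤ B`, then it is within `l / y` of it -/
def S_L2 : Prop := ∀ η : ℝ → ℝ, Tendsto η atTop (𝓝 0) → ∀ c : ℝ, 0 < c → ∀ B : ℕ, ∀ l : ℝ, 0 < l →
  ∃ τ : ℝ, 0 < τ ∧ ∃ y0 : ℕ, ∀ y : ℕ, y0 ≤ y → ∀ A : Set UnitAddCircle, ThinBy η A → ∀ W : Finset ℕ, W ⊆ PB y →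
  c * (y : ℝ) / Real.log y ≤ (W.card : ℝ) → ∀ β : ℝ,
  (∀ p ∈ W, ∃ x ∈ A, ‖(((p : ℝ) * β : ℝ) : UnitAddCircle) - x‖ ≤ τ) →
  ∀ (b : ℕ) (a : ℤ), 1 ≤ b → b ≤ B → |β - a / b| * y ≤ B → |β - a / b| * y ≤ l

open Classical in
/-- M: few windows with correlations with frequencies near fixed rationals -/
def S_M : Prop := ∀ h : ℕ → ℂ, (∀ n, ‖h n‖ ≤ 1) → ExpoSmall h → ∀ ε : ℝ, 0 < ε → ∀ κ : ℝ, 0 < κ → ∀ B0 : ℕ,
  ∃ l : ℝ, 0 < l ∧ ∃ H0 : ℕ, ∀ H : ℕ, H0 ≤ H → ∃ N0 : ℕ, ∀ N : ℕ, N0 ≤ N → ∀ s : ℕ, s < H →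
  ∀ (al : ℕ → ℝ) (G : ℕ → Prop), (∀ k, G k → 1 ≤ k ∧ (∃ b : ℕ, 1 ≤ b ∧ b ≤ B0 ∧ ∃ a : ℤ, |al k - a / b| ≤ l) ∧
    ε * H ≤ ‖∑ i ∈ range H, h (k * H - s + i) * ee (((k * H - s + i : ℕ) : ℝ) * al k)‖) →
  (((range N).filter (fun n => G (kx H s n))).card : ℝ) ≤ κ * N

open Classical in
/-- the core -/
def S_Core : Prop := ∀ h : ℕ → ℂ, Mul1 h → ExpoSmall h → ∀ η : ℝ → ℝ, Tendsto η atTop (𝓝 0) → ∀ ε : ℝ, 0 < ε →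
  ∃ H0 : ℕ, ∀ H : ℕ, H0 ≤ H → ∃ N0 : ℕ, ∀ N : ℕ, N0 ≤ N → ∀ A : Set UnitAddCircle, ThinBy η A → ∀ s : ℕ, s < H →
  ∀ (om : ℕ → ℂ) (al : ℕ → ℝ), (∀ k, ‖om k‖ ≤ 1) → om 0 = 0 → (∀ k, ((al k : ℝ) : UnitAddCircle) ∈ A) →
  (∀ k, om k ≠ 0 → ε * H ≤ ‖∑ i ∈ range H, h (k * H - s + i) * ee (((k * H - s + i : ℕ) : ℝ) * al k)‖) →
  ‖∑ n ∈ Ioc 0 N, h n * Fw H s om al n‖ ≤ ε * N

/-- the theorem on local Fourier uniformity -/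
def S_F : Prop := ∀ h : ℕ → ℂ, Mul1 h → ExpoSmall h → ∀ η : ℝ → ℝ, Tendsto η atTop (𝓝 0) → ∀ ε : ℝ, 0 < ε →
  ∃ H0 : ℕ, ∀ H : ℕ, H0 ≤ H → ∃ N0 : ℕ, ∀ N : ℕ, N0 ≤ N → ∀ A : Set UnitAddCircle, ThinBy η A →
  ∀ a : ℕ → ℝ, (∀ n, ((a n : ℝ) : UnitAddCircle) ∈ A) →
  ∑ n ∈ range N, ‖∑ i ∈ range H, h (n + i) * ee ((i : ℝ) * a n)‖ ≤ ε * H * N

/-- package F -/
def P_F : Prop := S_Core → S_F

/-- Local Fourier uniformity of `h` for the frequencies in compact null sets: for almost all windows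
of length `H` the function `h` does not correlate with any `e (i α)`, `α ∈ K`, where `α` may change with the
window. -/
def LFU (h : ℕ → ℂ) : Prop := ∀ K : Set UnitAddCircle, IsCompact K → volume K = 0 → ∀ ε : ℝ, 0 < ε →
  ∃ H0 : ℕ, ∀ H : ℕ, H0 ≤ H → ∃ N0 : ℕ, ∀ N : ℕ, N0 ≤ N → ∀ a : ℕ → UnitAddCircle, (∀ n, a n ∈ K) →
    ∑ n ∈ range N, ‖∑ i ∈ range H, h (n + i) * (fourier (i : ℤ) (a n) : ℂ)‖ ≤ ε * H * N

/-- THN: compact null sets are thin -/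
def S_THN : Prop := ∀ K : Set UnitAddCircle, IsCompact K → volume K = 0 →
  ∃ η : ℝ → ℝ, Tendsto η atTop (𝓝 0) ∧ ThinBy η K

/-- FA -/
def P_FA : Prop := S_F → S_THN → ∀ h : ℕ → ℂ, Mul1 h → ExpoSmall h → LFU h

/-- The sequence `a` is Besicovitch almost periodic with frequencies in `K`: it is a limit in mean of
trigonometric polynomials with frequencies in `K`. -/
def BesIn (K : Set UnitAddCircle) (a : ℕ → ℂ) : Prop := ∀ δ : ℝ, 0 < δ →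
  ∃ (J : Finset UnitAddCircle) (c : UnitAddCircle → ℂ), (J : Set UnitAddCircle) ⊆ K ∧
    ∃ L0 : ℕ, ∀ L : ℕ, L0 ≤ L →
      ∑ n ∈ range L, ‖a n - ∑ α ∈ J, c α * (fourier (n : ℤ) α : ℂ)‖ ≤ δ * L

/-- D: topological systems for all of whose invariant measures almost all orbits are Besicovitch
almost periodic with frequencies in a countable union of compact null sets -/
def S_D : Prop := ∀ h : ℕ → ℂ, (∀ n, ‖h n‖ ≤ 1) → LFU h →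
  ∀ (X : Type u) [MetricSpace X] [CompactSpace X] [MeasurableSpace X] [BorelSpace X] (T : X → X), Continuous T →
  ∀ K : ℕ → Set UnitAddCircle, (∀ i, IsCompact (K i) ∧ volume (K i) = 0) →
  ∀ f : C(X, ℂ), (∀ ν : Measure X, IsProbabilityMeasure ν → MeasurePreserving T ν ν →
    ∀ᵐ z ∂ν, BesIn (⋃ i, K i) (fun n => f (T^[n] z))) →
  ∀ ε : ℝ, 0 < ε → ∃ N0 : ℕ, ∀ N : ℕ, N0 ≤ N → ∀ x : X, ‖∑ n ∈ Icc 1 N, h n * f (T^[n] x)‖ ≤ ε * N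

/-- the numbers modulo one which are badly approximable with constant `1 / (M + 1)` -/
def BAset (M : ℕ) : Set UnitAddCircle := {x | ∀ q : ℕ, 1 ≤ q → 1 / ((M + 1 : ℝ) * q) ≤ ‖q • x‖}

/-- BA: the sets of the badly approximable numbers with a given constant are compact null sets -/
def S_BA : Prop := ∀ M : ℕ, IsCompact (BAset M) ∧ volume (BAset M) = 0

end Pool.Agent.U237.NF.Lite
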